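import Pool.Agent.Helper6.TRI.GDefs
import Pool.Agent.Helper42.SQ.GDefs2
import Pool.Agent.Helper16.GS.Uniform
import Pool.Agent.Helper16.FIN.Chart

/-!
# TRI, block F1: the points are on a curve
-/

set_option autoImplicit false

namespace Pool.Agent.TRI

open Module MvPolynomial
open Pool.Agent.Helper64.Vojta (Pl nv sn above)
open Pool.Agent.Chart (fld dg crd hgt val lam)

universe u

/-- homogenisation in the chart `x j₀ = 1` -/
private noncomputable def hz_12 {k₀ : Type u} [Field k₀] {N : ℕ} (j₀ : Fin (N + 1)) (f : MvPolynomial (Fin N) k₀) :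
    MvPolynomial (Fin (N + 1)) k₀ :=
  ∑ d ∈ Finset.range (f.totalDegree + 1),
    X j₀ ^ (f.totalDegree - d) * rename (fun i : Fin N => Equiv.swap 0 j₀ i.succ) (homogeneousComponent d f)

private theorem hz_hom_12 {k₀ : Type u} [Field k₀] {N : ℕ} (j₀ : Fin (N + 1)) (f : MvPolynomial (Fin N) k₀) :
    (hz_12 j₀ f).IsHomogeneous f.totalDegree := by
  unfold hz_12
  refine IsHomogeneous.sum _ _ _ fun d hd => ?_
  have h1 : d ≤ f.totalDegree := by
    have := Finset.mem_range.1 hd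
    omega
  have h2 := ((isHomogeneous_X k₀ j₀).pow (f.totalDegree - d)).mul
    ((homogeneousComponent_isHomogeneous d f).rename_isHomogeneous (f := fun i : Fin N => Equiv.swap 0 j₀ i.succ))
  have h3 : 1 * (f.totalDegree - d) + d = f.totalDegree := by omega
  rwa [h3] at h2

private theorem hz_eval_12 {k₀ : Type u} [Field k₀] {N : ℕ} (j₀ : Fin (N + 1)) (f : MvPolynomial (Fin N) k₀) {K : Type*} [Field K]
    [Algebra k₀ K] (z : Fin (N + 1) → K) (hz : z j₀ ≠ 0) :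
    aeval z (hz_12 j₀ f) = z j₀ ^ f.totalDegree * aeval (fun i : Fin N => z (Equiv.swap 0 j₀ i.succ) / z j₀) f := by
  unfold hz_12
  have key : aeval (fun i : Fin N => z (Equiv.swap 0 j₀ i.succ) / z j₀) f = ∑ i ∈ Finset.range (f.totalDegree + 1),
      aeval (fun i : Fin N => z (Equiv.swap 0 j₀ i.succ) / z j₀) (homogeneousComponent i f) := by
    conv_lhs => rw [← sum_homogeneousComponent f]
    rw [map_sum]
  rw [map_sum, key, Finset.mul_sum]
  refine Finset.sum_congr rfl fun d hd => ?_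
  have h1 : d ≤ f.totalDegree := by
    have := Finset.mem_range.1 hd
    omega
  have h2 := Pool.Agent.Helper64.GS.aeval_scale (homogeneousComponent_isHomogeneous d f) (z j₀)
    (fun i : Fin N => z (Equiv.swap 0 j₀ i.succ) / z j₀)
  have h3 : (fun i : Fin N => z j₀ * (z (Equiv.swap 0 j₀ i.succ) / z j₀)) = z ∘ fun i : Fin N => Equiv.swap 0 j₀ i.succ := by
    funext i
    exact mul_div_cancel₀ _ hz
  rw [h3] at h2
  rw [map_mul, map_pow, aeval_X, aeval_rename, h2, ← mul_assoc, ← pow_add]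
  congr 2
  omega

private theorem aff_12 {k₀ : Type u} [Field k₀] {N : ℕ} {I : Ideal (MvPolynomial (Fin (N + 1)) k₀)} (hX : Surf I)
    (j₀ : Fin (N + 1)) (h : X j₀ ∉ I) : ∃ P : Ideal (MvPolynomial (Fin N) k₀), P.IsPrime ∧
      Algebra.trdeg k₀ (MvPolynomial (Fin N) k₀ ⧸ P) = (2 : ℕ) ∧ ∀ f, f ∈ P ↔ hz_12 j₀ f ∈ I := by
  classical
  have := hX.prime
  let A := MvPolynomial (Fin (N + 1)) k₀ ⧸ I
  let K := FractionRing A
  let x : Fin (N + 1) → K := fun a => algebraMap A K (Ideal.Quotient.mk I (X a))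
  have hx : ∀ f, aeval x f = algebraMap A K (Ideal.Quotient.mk I f) := by
    intro f
    have h1 : aeval x = ((IsScalarTower.toAlgHom k₀ A K).comp (Ideal.Quotient.mkₐ k₀ I)) := by
      apply MvPolynomial.algHom_ext
      intro i
      rw [aeval_X]
      rfl
    rw [h1]
    rfl
  have hx0 : ∀ f, aeval x f = 0 ↔ f ∈ I := by
    intro f
    rw [hx, IsFractionRing.to_map_eq_zero_iff, Ideal.Quotient.eq_zero_iff_mem]
  have hxj : x j₀ ≠ 0 := by
    intro h1
    apply h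
    rw [← hx0, aeval_X]
    exact h1
  have htr : Algebra.trdeg k₀ (MvPolynomial (Fin (N + 1)) k₀ ⧸ I) = ((2 : ℕ) : Cardinal.{u}) + 1 := by
    rw [hX.tr]
    norm_num
  have hon : Pool.Agent.GS.OnX (Pool.Agent.GS.hom I) x := fun f hf => (hx0 f).2 hf.1
  have hle : Pool.Agent.GS.rk k₀ (Pool.Agent.GS.Rat x) ≤ (2 : ℕ) :=
    Pool.Agent.GS.dim_le_hom I hX.hom htr K x hon
  have hge : ((2 : ℕ) : ℕ∞) ≤ Pool.Agent.GS.rk k₀ (Pool.Agent.GS.Rat x) :=
    Pool.Agent.GS.generic_point_hom I hX.hom htr x hon fun f _ hf h1 => hf ((hx0 f).1 h1)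
  have hrk := le_antisymm hle hge
  let w : Fin N → K := fun i => x (Equiv.swap 0 j₀ i.succ) / x j₀
  let ψ : MvPolynomial (Fin N) k₀ →ₐ[k₀] K := aeval w
  let P : Ideal (MvPolynomial (Fin N) k₀) := RingHom.ker ψ
  have hP : P.IsPrime := RingHom.ker_isPrime ψ
  have hPm : ∀ f, f ∈ P ↔ hz_12 j₀ f ∈ I := by
    intro f
    have h1 : f ∈ P ↔ aeval w f = 0 := RingHom.mem_ker
    rw [h1, ← hx0, hz_eval_12 j₀ f x hxj, mul_eq_zero]
    constructor
    · exact fun h2 => Or.inr h2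
    · rintro (h2 | h2)
      · exact absurd h2 (pow_ne_zero _ hxj)
      · exact h2
  refine ⟨P, hP, ?_, hPm⟩
  let φ : (MvPolynomial (Fin N) k₀ ⧸ P) →ₐ[k₀] K := Ideal.Quotient.liftₐ P ψ (fun a ha => ha)
  have hφm : ∀ f, φ (Ideal.Quotient.mk P f) = aeval w f := fun f => rfl
  have hφ : Function.Injective φ := by
    rw [injective_iff_map_eq_zero]
    intro z hz
    obtain ⟨f, rfl⟩ := Ideal.Quotient.mk_surjective z
    rw [hφm] at hz
    rw [Ideal.Quotient.eq_zero_iff_mem]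
    exact RingHom.mem_ker.2 hz
  have hw : ∀ a, ∃ z, φ z = x a / x j₀ := by
    intro a
    have h1 : ∀ b : Fin (N + 1), ∃ z, φ z = x (Equiv.swap 0 j₀ b) / x j₀ := by
      intro b
      refine Fin.cases ?_ (fun i => ?_) b
      · refine ⟨1, ?_⟩
        rw [map_one, Equiv.swap_apply_left, div_self hxj]
      · refine ⟨Ideal.Quotient.mk P (X i), ?_⟩
        rw [hφm, aeval_X]
    obtain ⟨z, hz⟩ := h1 (Equiv.swap 0 j₀ a)
    rw [Equiv.swap_apply_self] at hz
    exact ⟨z, hz⟩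
  set M := AlgebraicIndependent.matroid k₀ K with hM
  have hcl : ∀ (s : Set K) (z : K), z ∈ M.closure s ↔ IsAlgebraic (Algebra.adjoin k₀ s) z := by
    intro s z
    rw [hM, AlgebraicIndependent.matroid_closure_eq]
    exact Iff.rfl
  have h1 : φ '' (Set.univ) ⊆ M.closure (Pool.Agent.GS.Rat x) := by
    rintro _ ⟨z, -, rfl⟩
    obtain ⟨f, rfl⟩ := Ideal.Quotient.mk_surjective z
    rw [hcl, hφm]
    have h2 : aeval w f ∈ Algebra.adjoin k₀ (Pool.Agent.GS.Rat x) := by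
      have h3 : Algebra.adjoin k₀ (Set.range w) ≤ Algebra.adjoin k₀ (Pool.Agent.GS.Rat x) := by
        refine Algebra.adjoin_mono ?_
        rintro _ ⟨j, rfl⟩
        exact ⟨_, j₀, rfl⟩
      apply h3
      rw [Algebra.adjoin_range_eq_range_aeval]
      exact ⟨f, rfl⟩
    exact isAlgebraic_algebraMap (A := K) (⟨_, h2⟩ : Algebra.adjoin k₀ (Pool.Agent.GS.Rat x))
  have h2 : Pool.Agent.GS.Rat x ⊆ M.closure (φ '' (Set.univ)) := by
    rintro _ ⟨a, b, rfl⟩
    rw [hcl]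
    rcases eq_or_ne (x b) 0 with hb | hb
    · rw [hb, div_zero]
      exact isAlgebraic_zero
    obtain ⟨za, hza⟩ := hw a
    obtain ⟨zb, hzb⟩ := hw b
    let B := Algebra.adjoin k₀ (φ '' (Set.univ))
    let ta : B := ⟨φ za, Algebra.subset_adjoin ⟨za, trivial, rfl⟩⟩
    let tb : B := ⟨φ zb, Algebra.subset_adjoin ⟨zb, trivial, rfl⟩⟩
    have htb : φ zb ≠ 0 := by
      rw [hzb]
      exact div_ne_zero hb hxj
    refine ⟨Polynomial.C tb * Polynomial.X - Polynomial.C ta, ?_, ?_⟩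
    · intro h
      have := congrArg (fun p => Polynomial.coeff p 1) h
      simp only [Polynomial.coeff_sub, Polynomial.coeff_C_mul, Polynomial.coeff_X_one, mul_one,
        Polynomial.coeff_C_succ, sub_zero, Polynomial.coeff_zero] at this
      exact htb (congrArg Subtype.val this)
    · rw [map_sub, map_mul, Polynomial.aeval_C, Polynomial.aeval_C, Polynomial.aeval_X, sub_eq_zero]
      show φ zb * (x a / x b) = φ za
      rw [hza, hzb, div_mul_div_comm, mul_comm (x b) (x a), mul_div_mul_right _ _ hb]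
  have h3 : M.closure (φ '' (Set.univ)) = M.closure (Pool.Agent.GS.Rat x) :=
    (M.closure_subset_closure_of_subset_closure h1).antisymm (M.closure_subset_closure_of_subset_closure h2)
  have h4 : (AlgebraicIndependent.matroid k₀ (MvPolynomial (Fin N) k₀ ⧸ P)).eRank = (2 : ℕ) := by
    have h5 : (AlgebraicIndependent.matroid k₀ (MvPolynomial (Fin N) k₀ ⧸ P)).E = Set.univ := rfl
    rw [← Matroid.eRk_ground, h5, ← Pool.Agent.GS.eRk_image φ hφ, ← Matroid.eRk_closure_eq, ← hM, h3, Matroid.eRk_closure_eq]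
    exact hrk
  rw [← Matroid.toENat_cRank_eq, AlgebraicIndependent.matroid_cRank_eq] at h4
  exact Cardinal.toENat_eq_natCast.1 h4

theorem nondense {k₀ : Type u} [Field k₀] [NumberField k₀] {N q r : ℕ} (hq : 2 * r + 2 ≤ q)
    {I : Ideal (MvPolynomial (Fin (N + 1)) k₀)} (hX : Surf I) :
    ∃ Φ : MvPolynomial (Fin q × Fin (N + 1)) k₀, Φ ≠ 0 ∧
      ∀ (k : Type u) [Field k] [NumberField k] [Algebra k₀ k] (l : Fin q → Fin (N + 1) → k),
      aeval (fun p : Fin q × Fin (N + 1) => l p.1 p.2) Φ ≠ 0 → ∀ (S : Finset (Pl k)) (C : ℝ),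
      ∃ Q : MvPolynomial (Fin (N + 1)) k₀, Q ∉ I ∧ (∃ e, Q.IsHomogeneous e) ∧
        ∀ x : Fin (N + 1) → AlgebraicClosure k, (∃ j, x j = 1) → OnX I x → dg x ≤ r → (∀ i, val (l i) x ≠ 0) →
          q * hgt x - C ≤ ∑ ν ∈ S, ∑ i, lam (l i) ν x → aeval x Q = 0 := by
  classical
  have hIp : I.IsPrime := hX.prime
  have h1I : (1 : MvPolynomial (Fin (N + 1)) k₀) ∉ I := fun h => hIp.ne_top ((Ideal.eq_top_iff_one I).2 h)
  have hch : ∀ j₀ : Fin (N + 1), ∃ Φ : MvPolynomial (Fin q × Fin (N + 1)) k₀, Φ ≠ 0 ∧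
      ∀ (k : Type u) [Field k] [NumberField k] [Algebra k₀ k] (l : Fin q → Fin (N + 1) → k),
      aeval (fun p : Fin q × Fin (N + 1) => l p.1 p.2) Φ ≠ 0 → ∀ (S : Finset (Pl k)) (C : ℝ),
      ∃ Q : MvPolynomial (Fin (N + 1)) k₀, Q ∉ I ∧ (∃ e, Q.IsHomogeneous e) ∧
        ∀ x : Fin (N + 1) → AlgebraicClosure k, x j₀ = 1 → OnX I x → dg x ≤ r → (∀ i, val (l i) x ≠ 0) →
          q * hgt x - C ≤ ∑ ν ∈ S, ∑ i, lam (l i) ν x → aeval x Q = 0 := by
    intro j₀
    by_cases hj : X j₀ ∈ I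
    · refine ⟨1, one_ne_zero, fun k _ _ _ l _ S C => ⟨1, h1I, ⟨0, isHomogeneous_one _ _⟩, ?_⟩⟩
      intro x hx hxI _ _ _
      have := hxI _ hj
      rw [aeval_X, hx] at this
      exact absurd this one_ne_zero
    obtain ⟨P, hP, hPt, hPm⟩ := aff_12 hX j₀ hj
    obtain ⟨Φ, h1, h2⟩ := Pool.Agent.GS.main' (n := 2) (q := q) (r := r) le_rfl (by omega) P hPt
    refine ⟨rename (fun p : Fin q × Fin (N + 1) => (p.1, Equiv.swap 0 j₀ p.2)) Φ, ?_, ?_⟩
    · intro h
      apply h1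
      have hinj : Function.Injective (fun p : Fin q × Fin (N + 1) => (p.1, Equiv.swap 0 j₀ p.2)) := by
        rintro ⟨a, b⟩ ⟨c, d⟩ h3
        rw [Prod.mk.injEq] at h3 ⊢
        exact ⟨h3.1, (Equiv.swap 0 j₀).injective h3.2⟩
      have h3 := rename_injective (R := k₀) _ hinj
      apply h3
      rw [h, map_zero]
    · intro k _ _ _ l hl S C
      rw [aeval_rename] at hl
      obtain ⟨Q, h3, h4⟩ := h2 k (fun i => l i ∘ Equiv.swap 0 j₀) hl S C
      refine ⟨hz_12 j₀ Q, fun h => h3 ((hPm Q).2 h), ⟨_, hz_hom_12 j₀ Q⟩, ?_⟩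
      intro x hx hxI hd hv hC
      have hz : ∀ f : MvPolynomial (Fin N) k₀, aeval x (hz_12 j₀ f) = aeval (Pool.Agent.Chart.aff x j₀) f := by
        intro f
        rw [hz_eval_12 j₀ f x (by rw [hx]; exact one_ne_zero), hx, one_pow, one_mul]
        simp only [div_one]
        rfl
      rw [hz]
      apply h4
      · intro f hf
        rw [← hz]
        exact hxI _ ((hPm f).1 hf)
      · rw [Pool.Agent.Chart.dg_aff x j₀ hx]
        exact hd
      · intro i h
        exact hv i ((Pool.Agent.Chart.val_aff x j₀ hx (l i)).1 h)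
      · rw [Pool.Agent.Chart.hgt_aff x j₀ hx, Pool.Agent.Chart.lam_aff x j₀ hx]
        exact hC
  choose Φ hΦ hQ using hch
  refine ⟨∏ j, Φ j, Finset.prod_ne_zero_iff.2 fun j _ => hΦ j, ?_⟩
  intro k _ _ _ l hl S C
  rw [map_prod, Finset.prod_ne_zero_iff] at hl
  choose Q h1 h2 h3 using fun j => hQ j k l (hl j (Finset.mem_univ j)) S C
  choose e he using h2
  refine ⟨∏ j, Q j, ?_, ⟨∑ j, e j, IsHomogeneous.prod _ _ _ fun j _ => he j⟩, ?_⟩
  · intro h
    obtain ⟨i, -, hi⟩ := (Ideal.IsPrime.prod_mem_iff (hp := hIp)).1 h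
    exact h1 i hi
  · rintro x ⟨j, hj⟩ hxI hd hv hC
    rw [map_prod]
    exact Finset.prod_eq_zero (Finset.mem_univ j) (h3 j x hj hxI hd hv hC)

end Pool.Agent.TRI
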